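import Pool.Agent.U644.GI.Main

/-!
# The monodromy-weight conjecture and Galois cohomology in the central degree

Let `K` be a local field whose residue field has `q` elements, and `H^m(X)` the `ℓ`-adic cohomology
(with coefficients in an algebraically closed field) of the smooth proper varieties `X` over `K`, with
a geometric Frobenius element `F` and the monodromy operator `N`. Let `G_k` be the open subgroup of
the Weil group generated by `F ^ k` and by an open subgroup of inertia which acts unipotently.

Known properties, taken as hypotheses: the Künneth formula, duality up to a Tate twist, and that the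
eigenvalues of `F` are `q`-Weil numbers of integral weights (`IsLocal`); the weights of `H^m(X)` are at
most `m + dim X` (`WeightRange`); the eigenvalues of `F` are algebraic integers; there is a test variety
`Z`, for instance a Tate curve (`IsTest`); Honda–Tate theory (`HondaTate`).

Theorem. (1) For every smooth proper variety `X` the following are equivalent:

* the monodromy-weight conjecture for `X` (all `H^m(X)` are mw pure of weight `m`);
* for all varieties `B` with potentially good reduction, all `k` and all `r`, with
  `Y = X × Z^(dim X - 1) × B`: the group `G_k` has no nonzero invariants in `H^(2r-1)(Y)(r)`;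
* the same with `H^1(G_k, H^(2r-1)(Y)(r)) = 0`.

(2) Therefore the following are equivalent:

* the monodromy-weight conjecture for all smooth proper varieties over `K` (Q1 over `K`);
* `H^0(G_k, H^(2r-1)(Y)(r)) = 0` for all `Y`, `k`, `r`: no open subgroup of the Galois group has nonzero
  invariants in `H^(2r-1)(Y)(r)`;
* `H^1(G_k, H^(2r-1)(Y)(r)) = 0` for all `Y`, `k`, `r` (this group contains the local images of the
  `ℓ`-adic Abel-Jacobi map);
* the Euler factor of `H^(2r-1)(Y)` over the unramified extension of degree `k` of `K` has no pole at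
  the central point `s = r`, for all `Y`, `k`, `r`.

Known is that the first statement implies the others. New is the converse: the vanishing in the
*single* weight `-1` and for the *single* eigenvalue `1` gives the whole conjecture, and (1). The
proof first lowers the excess `c` of a vector `x` of `H(X)` killed by `N ^ (b + 1)`, `b < c`, to one
and `b` to zero, on the product with at most `dim X - 1` copies of `Z`: the
vector `x ⊗ N e - b⁻¹ N x ⊗ e` is killed by `N ^ b`, and has excess `c - 1`, and `x ⊗ N e` is killed by
`N ^ (b + 1)` and has excess `c - 1` (`e` is a vector of excess one of `Z`). Then the eigenvalue is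
made a power of `q` by the product with a variety with potentially good reduction.
-/

set_option autoImplicit false

universe u v w

open Module Pool.Agent.H914 Pool.Agent.Y163.MW Pool.Agent.U644.MW Pool.Agent.U644.GI

namespace Pool.Agent.Results.MP_cd312e_ag.CentralInvariants

variable {Ω : Type w} [Field Ω] [CharZero Ω]

lemma noPole_iff {R : Coh.{v, w} Ω} {q k r : ℕ} (hR : R.IsCoh q) :
    H0Vanishes R q k r ↔ NoPole R q k r := by
  have := hR.finite
  have h : ∀ x ∈ inertiaInvariants R r, frob R q k r x ∈ inertiaInvariants R r := by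
    intro x hx
    obtain ⟨h1, h2⟩ := Submodule.mem_inf.1 hx
    refine Submodule.mem_inf.2 ⟨frob_mem hR _ k r x h1, ?_⟩
    rw [LinearMap.mem_ker] at h2 ⊢
    rw [N_frob hR, h2, map_zero, smul_zero]
  constructor
  · intro h0
    refine ⟨h, fun hdet => ?_⟩
    obtain ⟨x, hx, hx0⟩ := SetLike.exists_of_lt (LinearMap.bot_lt_ker_of_det_eq_zero hdet)
    apply hx0
    rw [Submodule.mem_bot]
    apply Subtype.ext
    obtain ⟨h1, h2⟩ := Submodule.mem_inf.1 x.2
    refine h0 x h1 ?_ (LinearMap.mem_ker.1 h2)
    have h3 := congrArg Subtype.val (LinearMap.mem_ker.1 hx)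
    have h4 : (x : R.V) - frob R q k r x = 0 := h3
    exact (sub_eq_zero.1 h4).symm
  · rintro ⟨h', hdet⟩ x hx hF hN
    let y : inertiaInvariants R r := ⟨x, Submodule.mem_inf.2 ⟨hx, LinearMap.mem_ker.2 hN⟩⟩
    have h1 : (LinearMap.equivOfDetNeZero _ hdet) y = 0 := by
      apply Subtype.ext
      show x - frob R q k r x = 0
      rw [hF, sub_self]
    have h2 := (LinearMap.equivOfDetNeZero _ hdet).injective (h1.trans (map_zero _).symm)
    exact congrArg Subtype.val h2

/-- The known facts, with a test variety `Z`. -/
structure Known {K : Type u} [Field K] (T : Theory.{u, v, w} K Ω) (q : ℕ) (Z : SmVar.{u} K) :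
    Prop where
  one_lt : 1 < q
  isLocal : T.IsLocal q
  range : ∀ X : SmVar.{u} K, WeightRange (T.H X) q X.dim
  integral : IntegralEigenvalues T
  hondaTate : HondaTate T q
  test : IsTest (T.H Z) q

variable {K : Type u} [Field K] (T : Theory.{u, v, w} K Ω) (q : ℕ)

/-- The monodromy-weight conjecture for `X`. -/
def MonodromyWeight (X : SmVar.{u} K) : Prop := ∀ m, (T.H X).MWPure q m

/-- `H^0(G_k, H^(2r-1)(Y)(r)) = 0` for all `k, r ≥ 1`. -/
def NoInvariants (Y : SmVar.{u} K) : Prop := ∀ k r, 0 < k → 0 < r → H0Vanishes (T.H Y) q k r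

/-- `H^1(G_k, H^(2r-1)(Y)(r)) = 0` for all `k, r ≥ 1`. -/
def NoFirstCohomology (Y : SmVar.{u} K) : Prop := ∀ k r, 0 < k → 0 < r → H1Vanishes (T.H Y) q k r

/-- No Euler factor of `H^(2r-1)(Y)` over an unramified extension of `K` has a pole at `s = r`, for
all `r ≥ 1`. -/
def NoCentralPoles (Y : SmVar.{u} K) : Prop := ∀ k r, 0 < k → 0 < r → NoPole (T.H Y) q k r

/-- The equivalences for one variety `X`. -/
def LocalForm (Z X : SmVar.{u} K) : Prop :=
  List.TFAE [MonodromyWeight T q X,
    ∀ B, IsGood (T.H B) q → NoInvariants T q ((times X Z (X.dim - 1)).prod B),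
    ∀ B, IsGood (T.H B) q → NoFirstCohomology T q ((times X Z (X.dim - 1)).prod B)]

/-- The equivalences for all varieties. -/
def GlobalForm : Prop :=
  List.TFAE [∀ X, MonodromyWeight T q X, ∀ Y, NoInvariants T q Y, ∀ Y, NoFirstCohomology T q Y,
    ∀ Y, NoCentralPoles T q Y]

theorem result [IsAlgClosed Ω] (Z : SmVar.{u} K) (h : Known T q Z) :
    (∀ X : SmVar.{u} K, LocalForm T q Z X) ∧ GlobalForm T q := by
  obtain ⟨hq, hT, hW, hI, hHT, hZ⟩ := h
  refine ⟨fun X => main hT hq hW Z hZ hI hHT X, ?_⟩
  unfold GlobalForm
  tfae_have 1 → 3 := fun h Y k r hk hr => H1_of_pure hq (hT.coh Y) hk hr (h Y _)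
  tfae_have 3 → 2 := fun h Y k r hk hr => H0_of_H1 (hT.coh Y) (h Y k r hk hr)
  tfae_have 2 → 1 := fun h X =>
    ((main hT hq hW Z hZ hI hHT X).out 1 0).1 fun B _ k r hk hr => h _ k r hk hr
  tfae_have 2 ↔ 4 := by
    refine forall_congr' fun Y => forall_congr' fun k => forall_congr' fun r => ?_
    rw [noPole_iff (hT.coh Y)]
  tfae_finish

end Pool.Agent.Results.MP_cd312e_ag.CentralInvariants
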