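import Pool.Agent.U672.MW.Main
import Pool.Agent.U672.MW.SysDefs

/-!
# The monodromy-weight conjecture for systems of equations with few terms, in all dimensions

`k` is a field of characteristic zero embedded in a finite extension `K` of `ℚ_p`, and `T` is the theory of
the spaces `gr^W_w H^n_c(X_K̄, ℚ_ℓ)`, with coefficients extended to an algebraically closed field `E`, for
the separated schemes `X` of finite type over `k`, with their known properties (`Theory`, `IsTensorTheory`).
`T.MW X` is the assertion of the monodromy-weight conjecture for all `gr^W_w H^n_c(X)`: on the graded
pieces `gr_s` of the monodromy filtration the eigenvalues of the elements `g` of the Weil group are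
algebraic numbers, and their complex conjugates have absolute value `p ^ ((w + s) v(g) / 2)`. For a smooth
projective `X` the only weight of `H^m` is `m`, and this is the question for `H^m` (`T.Q1 m X`).

The *excess* of a system of polynomials is the sum of (number of terms - 2) over its members with at least
three terms.

**Theorem.** `T.MW X` is true for all closed subschemes `X` of affine spaces which are defined by a system
`G` of excess at most three and polynomials `H` with any numbers of terms whose exponents are independent
modulo the differences of the exponents of `G`: for instance for all hypersurfaces with at most five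
terms and for all hypersurfaces with affinely independent exponents, in all dimensions, singular or not.
So the conjecture is true for all smooth projective varieties which can be obtained from these schemes
and from the schemes of dimension at most two by cutting and pasting, products and quotients by
finite free coverings (`Constructed`).

The case of dimension two (Rapoport-Zink, de Jong) is the only case of the conjecture which is used. The
theorem of Scholze on complete intersections in toric varieties is not used; the schemes here need
not be complete intersections, nor smooth, and no nondegeneracy is assumed.

Proof. Decompose the space in tori. On a torus each equation `f = 0` of `H` is replaced, after the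
covering by the `N`-th roots of the monomials of `f`, by the product of a Fermat hypersurface and of
the equations `monomial = 1`; Fermat hypersurfaces come from curves by the induction of Shioda and Katsura.
The rest is a system of excess at most two, which is, up to tori, finite over a scheme of dimension at
most two, or of excess three; in this case either one more equation is split off in the same way, or
the ratios of the monomials satisfy a nontrivial relation, and the dimension drops. The property is
inherited by tensor products (representations of `sl(2)`), cut and paste (five lemma) and direct factors.
-/

set_option autoImplicit false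

open CategoryTheory AlgebraicGeometry MvPolynomial Pool.Agent.Y116.UV Pool.Agent.Z125.UN
  Pool.Agent.U213.WM Pool.Agent.U672.ST Pool.Agent.U672.TC Pool.Agent.U738.BN Pool.Agent.U672.MW

namespace Pool.Agent.Results.MP_cd312e_ag.FewTerms

universe u v

/-- The smallest class of separated schemes of finite type over `k` which contains the systems of excess at
most three with further equations with independent exponents and the schemes of dimension at most
two, which contains with two of the schemes `X`, `Z` (a closed subscheme of `X`), `U` (its complement) also
the third, with two affine schemes their product, and with `Spec B` also `Spec A` if the `A`-algebra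
`B` is free of finite positive rank. -/
inductive Constructed {k : Type} [Field k] : Sch k → Prop
  | system (σ : Type) [Finite σ] (q r : ℕ) (G : Fin q → MvPolynomial σ k)
      (H : Fin r → MvPolynomial σ k) : excessOf G ≤ 3 → Independent G H → Constructed (zeros (Sum.elim G H))
  | small (X : Sch k) : FT True X → topologicalKrullDim X.left ≤ (2 : ℕ) → Constructed X
  | iso (X Y : Sch k) : FT True X → Nonempty (X ≅ Y) → Constructed X → Constructed Y
  | total {Z X U : Sch k} (i : Z ⟶ X) (j : U ⟶ X) : FT True X → IsTriple i j →
      Constructed Z → Constructed U → Constructed X
  | opened {Z X U : Sch k} (i : Z ⟶ X) (j : U ⟶ X) : FT True X → IsTriple i j →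
      Constructed Z → Constructed X → Constructed U
  | closed {Z X U : Sch k} (i : Z ⟶ X) (j : U ⟶ X) : FT True X → IsTriple i j →
      Constructed X → Constructed U → Constructed Z
  | product (A B : Type) [CommRing A] [CommRing B] [Algebra k A] [Algebra k B]
      [Algebra.FiniteType k A] [Algebra.FiniteType k B] : Constructed (aff k A) →
      Constructed (aff k B) → Constructed (aff k (TensorProduct k A B))
  | covering (A B : Type) [CommRing A] [CommRing B] [Algebra k A] [Algebra k B] [Algebra A B]
      [IsScalarTower k A B] [Algebra.FiniteType k A] (d : ℕ) :
      Nonempty (Module.Basis (Fin (d + 1)) A B) → Constructed (aff k B) → Constructed (aff k A)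

/-- **Theorem.** Assume the conjecture for the smooth projective schemes of dimension at most two over `k`
(this is known). Then the monodromy-weight assertion is true for (1) all systems of equations of
excess at most three together with equations whose exponents are independent; (2) all hypersurfaces
with at most five terms; (3) all hypersurfaces with affinely independent exponents; (4) all schemes
constructed from these, and so the conjecture for those of them which are smooth and projective. -/
theorem result {k : Type} [Field k] [CharZero k] {E : Type u} [Field E] [CharZero E] [IsAlgClosed E]
    {p : ℕ} [Fact p.Prime] {W : Type} [Group W] {ν : W → ℤ} (T : Theory.{u, v} k E p W ν)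
    (hT : IsTensorTheory T) {C : Sch k → Prop} (hC : IsProjClass T C)
    (hRZ : ∀ X, C X → topologicalKrullDim X.left ≤ (2 : ℕ) → ∀ m, T.Q1 m X) :
    (∀ (σ : Type) [Finite σ] (q r : ℕ) (G : Fin q → MvPolynomial σ k)
      (H : Fin r → MvPolynomial σ k), excessOf G ≤ 3 → Independent G H → T.MW (zeros (Sum.elim G H))) ∧
    (∀ (σ : Type) [Finite σ] (f : MvPolynomial σ k), f.support.card ≤ 5 →
      T.MW (zeros fun _ : Unit => f)) ∧
    (∀ (σ : Type) [Finite σ] (f : MvPolynomial σ k), Simplicial f →
      T.MW (zeros fun _ : Unit => f)) ∧
    ∀ X : Sch k, Constructed X → T.MW X ∧ (C X → ∀ m, T.Q1 m X) := by
  have hp : 1 < p := (Fact.out : p.Prime).one_lt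
  have hP := bndt (T := T) hp hT
  have hN := posN_two (T := T) hp hC hRZ
  have h2 : Plane T.MW := plane_of (d := 2) hN.dim hP (by omega)
  have key : ∀ (σ : Type) [Finite σ] (q r : ℕ) (G : Fin q → MvPolynomial σ k)
      (H : Fin r → MvPolynomial σ k), excessOf G ≤ 3 → Independent G H → T.MW (zeros (Sum.elim G H)) :=
    fun σ _ q r G H he hI => main_P hP h2 hN G H hI he
  refine ⟨key, fun σ _ f hf => ?_, fun σ _ f hf => ?_, fun X hX => ?_⟩
  · have h := key σ 1 0 (fun _ => f) (fun i => i.elim0) (by
      rw [excessOf, Fin.sum_univ_one]
      omega) (fun _ _ _ i => i.elim0)
    have e : Set.range (Sum.elim (fun _ : Fin 1 => f) fun i : Fin 0 => i.elim0) =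
        Set.range fun _ : Unit => f := by
      ext g
      constructor
      · rintro ⟨i | i, rfl⟩
        · exact ⟨(), rfl⟩
        · exact i.elim0
      · rintro ⟨_, rfl⟩
        exact ⟨Sum.inl 0, rfl⟩
    rw [zeros, e] at h
    exact h
  · have h := key σ 0 1 (fun i => i.elim0) (fun _ => f) (by
      rw [excessOf, Fin.sum_univ_zero]
      exact Nat.zero_le _) (ind_of_affine _ f hf)
    have e : Set.range (Sum.elim (fun i : Fin 0 => i.elim0) fun _ : Fin 1 => f) =
        Set.range fun _ : Unit => f := by
      ext g
      constructor
      · rintro ⟨i | i, rfl⟩
        · exact i.elim0
        · exact ⟨(), rfl⟩
      · rintro ⟨_, rfl⟩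
        exact ⟨Sum.inr 0, rfl⟩
    rw [zeros, e] at h
    exact h
  · have h : T.MW X := by
      induction hX with
      | system σ q r G H he hI => exact key σ q r G H he hI
      | small X hX hd => exact (class_dim_iff T hp hC 2).1 hRZ X hX hd
      | iso X Y hX e _ h => exact hP.iso hX e h
      | total i j hX ht _ _ h1 h2 => exact hP.total i j hX ht h1 h2
      | opened i j hX ht _ _ h1 h2 => exact hP.opened i j hX ht h1 h2
      | closed i j hX ht _ _ h1 h2 => exact hP.closed i j hX ht h1 h2
      | product A B _ _ h1 h2 => exact hP.prod A B h1 h2
      | covering A B d b _ h => exact hP.transfer A B d b h
    exact ⟨h, fun _ m => h m m⟩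

end Pool.Agent.Results.MP_cd312e_ag.FewTerms
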