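import Pool.Agent.U865.WM.Sys

/-!
# MP_cd312e_ag: the ranks of the powers of the monodromy operator, slopes and Hodge numbers
-/

set_option autoImplicit false

open Module

universe u v w

namespace Pool.Agent.Results.MP_cd312e_ag.RanksAndHodgeNumbers

open Pool.Agent.H914 Pool.Agent.Y143 Pool.Agent.Y163.MW Pool.Agent.Y163.MX Pool.Agent.U865.WM

section

variable {K : Type u} [Field K] {Ω : Nat.Primes → Type w} [∀ ℓ, Field (Ω ℓ)]
  [∀ ℓ, CharZero (Ω ℓ)] {p : Nat.Primes}

/-- The characteristic polynomial of the Frobenius on `H^m(X)` has rational coefficients and is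
independent of `ℓ`; `rank (N_ℓ ^ k)` is at most the number of its complex roots `z` with
`|z| ≥ q ^ ((m + k) / 2)` plus the number of those with `|z| ≥ q ^ ((m + k + 1) / 2)`, and the
monodromy-weight conjecture holds for the `ℓ`-adic `H^m(X)` if and only if there is equality for all
`k ≥ 1`. -/
def RankCriterion (T : LTheory.{u, v, w} K Ω p) (q : ℕ) (X : SmVar.{u} K) (m : ℕ) : Prop :=
  ∃ C : Polynomial ℚ, ∀ ℓ, charP (T.H ℓ X) m = C.map (algebraMap ℚ (Ω ℓ)) ∧
    (∀ k, rk (T.H ℓ X) m k ≤ rootsGE C q (m + k) + rootsGE C q (m + k + 1)) ∧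
    ((T.H ℓ X).MWPure q m ↔ ∀ k : ℕ, 1 ≤ k →
      rk (T.H ℓ X) m k = rootsGE C q (m + k) + rootsGE C q (m + k + 1))

/-- If the conjecture holds for the `ℓ₀`-adic `H^m(X)`, then `rank (N_ℓ ^ k) ≤ rank (N_ℓ₀ ^ k)` for all
`ℓ` and `k`, and the conjecture holds for the `ℓ`-adic `H^m(X)` if and only if these ranks are equal
for all `k`. -/
def MaximalRanks (T : LTheory.{u, v, w} K Ω p) (q : ℕ) (X : SmVar.{u} K) (m : ℕ) : Prop :=
  ∀ ℓ₀, (T.H ℓ₀ X).MWPure q m → ∀ ℓ, (∀ k, rk (T.H ℓ X) m k ≤ rk (T.H ℓ₀ X) m k) ∧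
    ((T.H ℓ X).MWPure q m ↔ ∀ k, rk (T.H ℓ X) m k = rk (T.H ℓ₀ X) m k)

/-- For all `ℓ` and `t ≥ 0`,
`rank N_ℓ ^ (t + 1) + rank N_ℓ ^ (t + 3) + ... ≤ ∑ (2 λ - m - t)⁺ ≤ ∑ (a - b - t)⁺ h^(a,b)`; the sums
are over the slopes `λ` of the Hyodo-Kato cohomology group `H^m(X)` and over `a + b = m`. -/
def MonodromyBound (T : LTheory.{u, v, w} K Ω p) (X : SmVar.{u} K) (m : ℕ) : Prop :=
  ∀ ℓ, ∀ t M : ℕ, (rankSumFrom (T.H ℓ X) m t M : ℝ) ≤ slopeExcess (T.H p X) T.val m t ∧
    slopeExcess (T.H p X) T.val m t ≤ (hodgeExcess (T.hodge X m) m t : ℝ)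

/-- If the sum of the ranks of `N_ℓ ^ (t + 1)`, `N_ℓ ^ (t + 3)`, ... attains the first of these bounds,
then for `k = t + 1, t + 3, ...` the power `N_ℓ ^ k` is injective on the part of `H^m(X)` of the
weights `≥ m + k`, and it is an isomorphism from the part of weight `m + k` to the part of weight
`m - k`. If this is the case for `t = 0` and `t = 1`, the monodromy-weight conjecture holds for the
`ℓ`-adic `H^m(X)`. -/
def Extremal (T : LTheory.{u, v, w} K Ω p) (q : ℕ) (X : SmVar.{u} K) (m : ℕ) : Prop :=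
  ∀ ℓ, (∀ t M : ℕ, slopeExcess (T.H p X) T.val m t ≤ (rankSumFrom (T.H ℓ X) m t M : ℝ) →
      ∀ i : ℕ, (∀ c : ℤ, ((t + 1 + 2 * i : ℕ) : ℤ) ≤ c → ∀ x ∈ (T.H ℓ X).exc q m c,
        ((T.H ℓ X).N ^ (t + 1 + 2 * i)) x = 0 → x = 0) ∧ IsoAt (T.H ℓ X) q m (t + 1 + 2 * i)) ∧
    ∀ M M' : ℕ, slopeExcess (T.H p X) T.val m 0 ≤ (rankSumFrom (T.H ℓ X) m 0 M : ℝ) →
      slopeExcess (T.H p X) T.val m 1 ≤ (rankSumFrom (T.H ℓ X) m 1 M' : ℝ) →
      (T.H ℓ X).MWPure q m

/-- If all the slopes of the Hyodo-Kato cohomology group `H^m(X)` are at most `(m + L) / 2`, then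
`N_ℓ ^ (L + 1) = 0` on `H^m(X)` for all `ℓ`. If they are at most `m / 2` (that is, equal to `m / 2`),
the monodromy-weight conjecture holds for the `ℓ`-adic `H^m(X)` for all `ℓ`. -/
def SmallSlopes (T : LTheory.{u, v, w} K Ω p) (q : ℕ) (X : SmVar.{u} K) (m : ℕ) : Prop :=
  ∀ L : ℕ, (∀ α, mult (T.H p X) m α ≠ 0 → 2 * T.val α ≤ m + L) → ∀ ℓ,
    (∀ x ∈ (T.H ℓ X).gr m, ((T.H ℓ X).N ^ (L + 1)) x = 0) ∧ (L = 0 → (T.H ℓ X).MWPure q m)

end

/-- **The ranks of the powers of the monodromy operators, slopes and Hodge numbers.** Let `X` be a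
smooth proper variety over the local field `K` of characteristic zero, and `m ≤ 2 dim X`. Suppose
that for `j ≠ m` the characteristic polynomial of the Frobenius on `H^j(X)` has rational coefficients
and is independent of `ℓ`, for example because `H^j(X)` is generated by algebraic cycles (as for all
`j ≠ dim X` if `X` is a complete intersection in a projective space, a Grassmannian or another flag
variety). Then, for the `ℓ`-adic cohomology group `H^m(X)` for all prime numbers `ℓ` (the Hyodo-Kato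
cohomology if `ℓ = p`) with its monodromy operator `N_ℓ`:

(1) `rank (N_ℓ ^ k)` is at most the number of Frobenius eigenvalues of weight `≥ m + k` plus the
number of those of weight `> m + k`, numbers which do not depend on `ℓ`; the monodromy-weight
conjecture holds for `ℓ` if and only if there is always equality;

(2) if the conjecture holds for one prime number `ℓ₀`, the ranks of the `N_ℓ₀ ^ k` are maximal, and
the conjecture holds for `ℓ` if and only if the ranks are the same for `ℓ` and `ℓ₀`;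

(3) `rank N_ℓ ^ (t + 1) + rank N_ℓ ^ (t + 3) + ...` is bounded by the slopes of the Hyodo-Kato
cohomology and by the Hodge numbers;

(4) if the bound by the slopes is attained for `t`, the assertion of the conjecture on the powers
`N_ℓ ^ k` with `k = t + 1, t + 3, ...` holds; if it is attained for `t = 0` and `t = 1`, the conjecture
holds for `ℓ`;

(5) if the slopes are at most `(m + L) / 2`, then `N_ℓ ^ (L + 1) = 0` for all `ℓ`; if they are equal to
`m / 2`, the conjecture holds for all `ℓ`. -/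
theorem result {K : Type u} [Field K] {Ω : Nat.Primes → Type w} [∀ ℓ, Field (Ω ℓ)]
    [∀ ℓ, CharZero (Ω ℓ)] [∀ ℓ, IsAlgClosed (Ω ℓ)] {p : Nat.Primes} {T : LTheory.{u, v, w} K Ω p}
    {q : ℕ} (hq : 1 < q) (hT : T.IsLocal q) (X : SmVar.{u} K) (m : ℕ) (hm : m ≤ 2 * X.dim)
    (hX : IndepOutside T X m) :
    RankCriterion T q X m ∧ MaximalRanks T q X m ∧ MonodromyBound T X m ∧ Extremal T q X m ∧
      SmallSlopes T q X m := by
  obtain ⟨C, hC⟩ := exists_char hT hm hX
  have hw := weight_le_slope_sys hq hT hC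
  refine ⟨⟨C, fun ℓ => ⟨hC ℓ, crit hq hT hC ℓ⟩⟩, fun ℓ₀ h ℓ => compare hq hT hC h ℓ,
    fun ℓ t M => ⟨rank_le_slope_sys hq hT hC ℓ t M, slope_le_hodge (hT.polygons X m) t⟩,
    fun ℓ => ⟨fun t M h i => ?_, fun M M' h h' => ?_⟩, fun L hL ℓ => ?_⟩
  · refine iso_of_sum_eq hq (hT.coh ℓ X) (M := M) ?_ i
    have h1 := (hw ℓ t).trans (by exact_mod_cast h)
    exact_mod_cast h1
  · refine mw_of_sums hq (hT.coh ℓ X) (M := M) (M' := M') ?_ ?_
    · have h1 := (hw ℓ 0).trans (by exact_mod_cast h)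
      exact_mod_cast h1
    · have h1 := (hw ℓ 1).trans (by exact_mod_cast h')
      exact_mod_cast h1
  · have h0 : ∀ t : ℕ, L ≤ t → slopeExcess (T.H p X) T.val m t = 0 := by
      intro t ht
      refine slopeExcess_zero (hT.coh p X) fun α hα => (hL α hα).trans ?_
      have : (L : ℝ) ≤ t := by exact_mod_cast ht
      linarith
    constructor
    · apply zero_of_rk (hT.coh ℓ X)
      have h1 := rank_le_slope_sys hq hT hC ℓ L 1
      rw [h0 L le_rfl] at h1
      have h2 : rankSumFrom (T.H ℓ X) m L 1 = rk (T.H ℓ X) m (L + 1) := by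
        unfold rankSumFrom
        rw [Finset.sum_range_one, mul_zero, add_zero]
      rw [h2] at h1
      have h3 : rk (T.H ℓ X) m (L + 1) ≤ 0 := by exact_mod_cast h1
      omega
    · intro hL0
      subst hL0
      have h1 := hw ℓ 0
      have h2 := hw ℓ 1
      have e0 := h0 0 le_rfl
      have e1 := h0 1 (by omega)
      push_cast at h1 h2 e0 e1
      rw [e0] at h1
      rw [e1] at h2
      refine mw_of_sums hq (hT.coh ℓ X) (M := 0) (M' := 0) ?_ ?_
      · have : weightExcess (T.H ℓ X) q m 0 ≤ 0 := by exact_mod_cast h1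
        omega
      · have : weightExcess (T.H ℓ X) q m 1 ≤ 0 := by exact_mod_cast h2
        omega

end Pool.Agent.Results.MP_cd312e_ag.RanksAndHodgeNumbers
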