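import Pool.Agent.U213.WM.Rat

/-!
# The monodromy-weight conjecture in a single degree and three-term systems over `ℚ`

Fix a prime `p` and `E = ℚ_ℓ`, `ℓ ≠ p`. `T₀` is the theory of the spaces `gr^W_w H^n_c(X)` with the action
of the Weil group of `ℚ_p` and the monodromy operator, for the separated schemes `X` of finite type over
`ℚ`; `T i` is the same over a field `k i`: the number fields with a place above `p`, and the finite
extensions of `ℚ_p` (the fields of the structures `Theory`, `IsProjClass` and `Descends` are the properties
which are used). `C₀` and `C i` are the classes of the smooth projective (or the smooth proper) schemes.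
`Q1 m X` is the monodromy-weight conjecture for `H^m(X)`; `MWw w X` is the monodromy-weight assertion for the
quotients `gr^W_w H^n_c(X)`, `n ∈ ℤ`, and `MW X` is this assertion for all `w`.

1. For every single degree `w` the following are equivalent: the conjecture for `H^w` of all smooth
  projective schemes over all these fields; `MWw w X` for all separated schemes `X` of finite type over
  these fields; the conjecture for `H^w` of the smooth projective schemes over `ℚ`; `MWw w` for the affine
  schemes over `ℚ` given by systems of equations each of which is a sum of at most three monomials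
  `x_i y_j` with coefficient `1`.
2. Over every field `k` of the family, for every degree `w`, every number `t` and every set `S` which
  generates the field `k`, the following are equivalent: `MWw w` for all closed subschemes of affine spaces
  given by equations with at most `t` terms; `MWw w` for the systems of bilinear equations with at most `t`
  terms and coefficients in `S ∪ {1}`; `t ≤ 2` or the conjecture for `H^w` of all smooth projective schemes
  over `k`. So the three terms in 1. are sharp: `MWw w` is true for all equations with at most two terms.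
3. The conjecture for all degrees and all these fields is equivalent to `MW` for the smooth affine
  hypersurfaces `∑_{(i, j, k) ∈ F} x_i y_j z_k = 1` over `ℚ`, for all finite sets `F` of triples such that every
  variable `x_i` occurs in at most three monomials.

New here: the linear algebra of Weil numbers, of the monodromy filtration and of its formulation with
weight spaces, the five lemma, direct factors, Tate twists and restriction for the condition in the
problem (`Pool.Agent.U213.WM.Weil`, `Lin`, `Fil`), and the reductions in a single degree and to `ℚ` (`Main`,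
`Rat`). The geometric reductions of any property with such closure properties are those of
`Pool.Agent.Y116.UV`, `Pool.Agent.Z125.UN`, `Pool.Agent.Q282.UZ`, `Pool.Agent.U738.BN`.
-/

set_option autoImplicit false

open CategoryTheory AlgebraicGeometry MvPolynomial Pool.Agent.Y116.UV Pool.Agent.U213.WM
  Pool.Agent.U738.BN

namespace Pool.Agent.Results.MP_cd312e_ag.ThreeTermsOverQ

universe u v z

theorem result {E : Type u} [Field E] [CharZero E] {p : ℕ} (hp : 1 < p)
    -- the theory over `ℚ`
    {W₀ : Type} [Group W₀] {ν₀ : W₀ → ℤ} (T₀ : Theory.{u, v} ℚ E p W₀ ν₀) {C₀ : Sch ℚ → Prop}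
    (hC₀ : IsProjClass T₀ C₀)
    -- the theories over the number fields and the finite extensions of `ℚ_p`
    {ι : Type z} (k : ι → Type) [∀ i, Field (k i)] (W : ι → Type) [∀ i, Group (W i)]
    (ν : ∀ i, W i → ℤ) (T : ∀ i, Theory.{u, v} (k i) E p (W i) (ν i))
    {C : ∀ i, Sch (k i) → Prop} (hC : ∀ i, IsProjClass (T i) (C i))
    (hD : ∀ i, Descends (T i) T₀) :
    -- 1. a single degree
    (∀ w : ℤ, List.TFAE [
      (∀ X, C₀ X → T₀.Q1 w X) ∧ ∀ i, ∀ X, C i X → (T i).Q1 w X,
      (∀ X, FT True X → T₀.MWw w X) ∧ ∀ i, ∀ X, FT True X → (T i).MWw w X,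
      ∀ X, C₀ X → T₀.Q1 w X,
      T₀.Sys w]) ∧
    -- 2. the number of terms
    (∀ i, ∀ S : Set (k i), Subfield.closure S = ⊤ → ∀ (w : ℤ) (t : ℕ), List.TFAE [
      ForEquations t ((T i).MWw w),
      ForSystems S t ((T i).MWw w),
      t ≤ 2 ∨ ∀ X, C i X → (T i).Q1 w X]) ∧
    -- 3. all degrees
    (((∀ X, C₀ X → ∀ m, T₀.Q1 m X) ∧ ∀ i, ∀ X, C i X → ∀ m, (T i).Q1 m X) ↔ T₀.Hyps) := by
  have h1 : ∀ w : ℤ, List.TFAE [
      (∀ X, C₀ X → T₀.Q1 w X) ∧ ∀ i, ∀ X, C i X → (T i).Q1 w X,
      (∀ X, FT True X → T₀.MWw w X) ∧ ∀ i, ∀ X, FT True X → (T i).MWw w X,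
      ∀ X, C₀ X → T₀.Q1 w X,
      T₀.Sys w] := by
    intro w
    tfae_have 1 → 3 := fun h => h.1
    tfae_have 3 ↔ 4 := (weight_iff T₀ hp hC₀ w).trans (sys_rat hp T₀ w)
    tfae_have 3 → 2 := by
      intro h
      have h0 := (weight_iff T₀ hp hC₀ w).1 h
      exact ⟨h0, fun i X hX => descend hp (hD i) w h0 X hX⟩
    tfae_have 2 → 1 := fun h =>
      ⟨(weight_iff T₀ hp hC₀ w).2 h.1, fun i => (weight_iff (T i) hp (hC i) w).2 (h.2 i)⟩
    tfae_finish
  refine ⟨h1, fun i S hS w t => terms_iff (T i) hp (hC i) hS w t, ?_⟩
  rw [← hyps_rat hp T₀]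
  constructor
  · intro h X hX w
    exact (weight_iff T₀ hp hC₀ w).1 (fun X hX => h.1 X hX w) X hX
  · intro h
    have h2 : ∀ w, (∀ X, C₀ X → T₀.Q1 w X) ∧ ∀ i, ∀ X, C i X → (T i).Q1 w X := fun w =>
      ((h1 w).out 2 0).1 fun X hX => h X (hC₀.ft X hX) w w
    exact ⟨fun X hX w => (h2 w).1 X hX, fun i X hX w => (h2 w).2 i X hX⟩

end Pool.Agent.Results.MP_cd312e_ag.ThreeTermsOverQ
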